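import Pool.Agent.Q309.MG.Final

/-!
# MP_18f314_lc

Cohen forcing is strongly proper for stationarily many models, but it does not preserve the
existence of a winning strategy of player II in the Menger game.
-/

set_option autoImplicit false

namespace Pool.Agent.Results.MP_18f314_lc.MengerNotPreserved

open Pool.Agent.Helper669.Forcing Pool.Agent.Q309.MG Pool.Agent.Q309.SP

/-- Cohen forcing `Coh` is strongly proper for stationarily many models, player II has a winning
strategy in the Menger game on the Cantor space, and every condition of `Coh` forces that player II
has no winning strategy in the Menger game on the Cantor space of the ground model with the
topology generated by the open sets of the ground model, even when player I may only play covers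
that consist of open sets of the ground model. -/
theorem result : StronglyProperStat Coh ∧ WinsMenger Cantor ∧
    ∀ p : Coh, p ∈ fnot (FMenger Coh Cantor) :=
  ⟨stronglyProper_coh, winsMenger, not_FMenger⟩

end Pool.Agent.Results.MP_18f314_lc.MengerNotPreserved
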